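import Pool.Agent.N436.DF.Stm3

/-!
# Reservations in a hub system, case `(d₁, d₂) = (1, 3)` (helper832, project DF of helper436)
-/

namespace Pool.Agent.N832.DF.Res

open Finset Pool.Agent.N436.DF

theorem rho_res {V : Type} [DecidableEq V] (H : Hub V) (l : Bool → V → ℤ) (hl : ∀ i x, 0 ≤ l i x)
    (C : Finset V) :
    rho P13 H C - 2 * cost l C ≤ rho P13 (res H l) C := by
  have hw : ∀ v, wt P13 H v - (5 * l true v + 3 * l false v) ≤ wt P13 (res H l) v := by
    intro v
    have h1 := hl true v
    have h2 := hl false v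
    have e1 : wt P13 H v = 5 * (H.c true v + 1) + 3 * H.c false v := rfl
    have e2 : wt P13 (res H l) v
        = 5 * (max (-1) (H.c true v - l true v) + 1) + 3 * max (-1) (H.c false v - l false v) := rfl
    rw [e1, e2]
    have a1 : H.c true v - l true v ≤ max (-1) (H.c true v - l true v) := le_max_right _ _
    have a2 : H.c false v - l false v ≤ max (-1) (H.c false v - l false v) := le_max_right _ _
    linarith
  have hs : ∑ v ∈ C, (wt P13 H v - (5 * l true v + 3 * l false v))
      ≤ ∑ v ∈ C, wt P13 (res H l) v := Finset.sum_le_sum fun v _ => hw v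
  rw [Finset.sum_sub_distrib] at hs
  have e3 : ∑ u ∈ C, ∑ v ∈ C, ew P13 (res H l) u v = ∑ u ∈ C, ∑ v ∈ C, ew P13 H u v := rfl
  unfold rho cost
  rw [e3]
  linarith

/-- reserving capacity: the system stays admissible, the potential drops by at most the cost, and
a colouring of the reduced system has the reserved units spare -/
theorem res3 : S3_res := by
  intro V _ H l hOk hl
  refine ⟨?_, ?_, ?_⟩
  · refine ⟨fun i v => le_max_left _ _, ?_, ?_, hOk.r01, hOk.rsymm, hOk.r0, hOk.m_nn, hOk.msymm,
      hOk.m0⟩
    · intro v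
      have h1 := hl true v
      have h2 := hOk.c1_le v
      have h3 := hOk.c_ge true v
      exact max_le (by linarith) (by linarith)
    · intro v
      have h1 := hl false v
      have h2 := hOk.c2_le v
      have h3 := hOk.c_ge false v
      exact max_le (by linarith) (by linarith)
  · intro C
    have h := rho_res H l hl C
    unfold hp
    omega
  · intro S f p hcol
    have hload : ∀ x ∈ S, load H S f p x + l (f x) x ≤ H.c (f x) x ∧ 0 ≤ load H S f p x := by
      intro x hx
      have h0 : 0 ≤ load H S f p x := by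
        unfold load
        refine Finset.sum_nonneg fun v _ => ?_
        split_ifs
        · rcases hOk.r01 x v with h | h <;> rw [h] <;> norm_num
        · exact hcol.nn x v
      have h1 : load H S f p x ≤ max (-1) (H.c (f x) x - l (f x) x) := hcol.cap x hx
      refine ⟨?_, h0⟩
      rcases le_max_iff.mp h1 with h | h
      · linarith
      · linarith
    refine ⟨⟨hcol.nn, fun u hu v hv huv => hcol.pay u hu v hv huv, ?_⟩, hload⟩
    intro u hu
    have := (hload u hu).1
    have := hl (f u) u
    linarith

/-- colouring a proper subset with reservations -/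
theorem state3 (_hb : S3_base) (hr : S3_res) : S3_state := by
  intro V _ H S X l hmc hXS hne hl hcost
  obtain ⟨hok', hhp, hcol'⟩ := hr V H l hmc.ok hl
  have hHyp : Hyp P13 (res H l) X := by
    intro Y hY hYne
    have h1 := hhp Y
    have h2 := hcost Y hY hYne
    have e : (P13.b : ℤ) = 3 := rfl
    rw [e]
    unfold hp at h1 h2
    omega
  have hr0 : ∀ u v, 0 ≤ H.r u v := by
    intro u v
    rcases hmc.ok.r01 u v with h | h <;> rw [h] <;> norm_num
  have hE : eE (res H l) X ≤ eE H S := by
    have e : eE (res H l) X = ∑ u ∈ X, ∑ v ∈ X, H.r u v := rfl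
    rw [e]
    unfold eE
    calc ∑ u ∈ X, ∑ v ∈ X, H.r u v ≤ ∑ u ∈ X, ∑ v ∈ S, H.r u v :=
          Finset.sum_le_sum fun u _ =>
            Finset.sum_le_sum_of_subset_of_nonneg hXS fun v _ _ => hr0 u v
      _ ≤ ∑ u ∈ S, ∑ v ∈ S, H.r u v :=
          Finset.sum_le_sum_of_subset_of_nonneg hXS fun u _ _ =>
            Finset.sum_nonneg fun v _ => hr0 u v
  have hcard : X.card < S.card := Finset.card_lt_card (lt_of_le_of_ne hXS hne)
  obtain ⟨f, p, hc⟩ := hmc.ih2 (res H l) X hok' hHyp hE hcard
  obtain ⟨h1, h2⟩ := hcol' X f p hc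
  exact ⟨f, p, h1, h2⟩

end Pool.Agent.N832.DF.Res
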